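import Pool.Agent.helper31.TS.Lim

/-!
# MP_e314fa_co: growth rate of the torsion of the groups of face 2-coloured triangulations of the sphere

`exp ((2 / π) ∫_0^{π/3} log (2 cos x) dx) = 1.3813.. ≤ L ≤ 3^(1/3) e^(-2/81) = 1.4070..`.
-/

set_option autoImplicit false

open Pool.Agent.TS

namespace Pool.Agent.Results.MP_e314fa_co.TorsionGrowth

theorem result :
    (∀ (E V : Type) [Fintype E] [Fintype V] [DecidableEq V] (T : Tri E V) (t : ℕ),
      Fintype.card E = 3 * t → Fintype.card V = t + 2 → T.order ≤ mt t) ∧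
    (∀ t : ℕ, (mt t : ℝ) ≤ 6 * ((3 : ℝ) ^ (1 / 3 : ℝ) * Real.exp (-2 / 81)) ^ t) ∧
    Real.exp (2 / Real.pi * ∫ x in (0 : ℝ)..(Real.pi / 3), Real.log (2 * Real.cos x)) ≤ LL ∧
    LL ≤ (3 : ℝ) ^ (1 / 3 : ℝ) * Real.exp (-2 / 81) ∧
    1.37 < LL ∧ LL < 1.4072 := by
  refine ⟨?_, mt_le, exp_le_LL, LL_le, num_low.trans_le exp_le_LL, LL_le.trans_lt num_high⟩
  intro E V _ _ _ T t hE hV
  exact T.order_le_mt hE hV

end Pool.Agent.Results.MP_e314fa_co.TorsionGrowth
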